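import Mathlib

/-! Counting along the run for MP_12c032_co: marks (position, label), cut into parts with
strictly increasing labels; every part is paid by missed positions before its last mark. -/

namespace Pool.Agent.H10C

open Finset

/-- marks are pairs (position, label); `X` is the set of missed positions, `b y` the cost of a
mark of label 0 at position `y`; marks of label at least 1 cost 1. -/
structure Marks (g k : ℕ) (X : Finset ℕ) (b : ℕ → ℕ) (M : Finset (ℕ × ℕ)) : Prop where
  lab : ∀ q ∈ M, q.2 ≤ g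
  zer : ∀ q ∈ M, q.2 = 0 →
    (b q.1 + g ≤ k ∧ b q.1 ≤ q.1 ∧ ∀ x, q.1 ≤ x + b q.1 → x < q.1 → x ∈ X) ∨
    (b q.1 + g ≤ q.1 ∧ ∀ x, q.1 ≤ x + (b q.1 + g) → x < q.1 → x ∈ X)
  one : ∀ q ∈ M, 1 ≤ q.2 →
    (k - g + q.2 ≤ q.1 ∧ ∀ x, q.1 ≤ x + (k - g + q.2) → x < q.1 → x ∈ X)
  gap0 : ∀ q ∈ M, ∀ r ∈ M, q.2 = 0 → r.1 < q.1 → r.1 + b q.1 + g ≤ q.1
  gap1 : ∀ q ∈ M, ∀ r ∈ M, 1 ≤ q.2 → r.1 < q.1 → q.2 ≤ r.2 → r.1 + g ≤ q.1

theorem Marks.sub {g k : ℕ} {X : Finset ℕ} {b : ℕ → ℕ} {M P : Finset (ℕ × ℕ)}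
    (h : Marks g k X b M) (hP : P ⊆ M) : Marks g k X b P where
  lab q hq := h.lab q (hP hq)
  zer q hq := h.zer q (hP hq)
  one q hq := h.one q (hP hq)
  gap0 q hq r hr := h.gap0 q (hP hq) r (hP hr)
  gap1 q hq r hr := h.gap1 q (hP hq) r (hP hr)

def cost (b : ℕ → ℕ) (q : ℕ × ℕ) : ℕ := if q.2 = 0 then b q.1 else 1

def key (g : ℕ) (q : ℕ × ℕ) : ℕ := q.1 * (g + 1) + q.2

theorem key_fst {g : ℕ} {q r : ℕ × ℕ} (hr : r.2 ≤ g) (h : key g q ≤ key g r) : q.1 ≤ r.1 := by
  by_contra hlt
  push Not at hlt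
  have h1 : (r.1 + 1) * (g + 1) ≤ q.1 * (g + 1) := Nat.mul_le_mul_right _ hlt
  unfold key at h
  nlinarith

theorem key_inj {g : ℕ} {q r : ℕ × ℕ} (hq : q.2 ≤ g) (hr : r.2 ≤ g) (h : key g q = key g r) :
    q = r := by
  have h1 := key_fst hr h.le
  have h2 := key_fst hq h.ge
  have h3 : q.1 = r.1 := le_antisymm h1 h2
  have h4 : q.2 = r.2 := by
    unfold key at h
    rw [h3] at h
    omega
  exact Prod.ext h3 h4

theorem key_lt {g : ℕ} {q r : ℕ × ℕ} (hr : r.2 ≤ g) (h : key g q < key g r)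
    (hl : r.2 ≤ q.2) : q.1 < r.1 := by
  have h1 := key_fst hr h.le
  rcases Nat.lt_or_ge q.1 r.1 with h2 | h2
  · exact h2
  · exfalso
    have h3 : q.1 = r.1 := le_antisymm h1 h2
    unfold key at h
    rw [h3] at h
    omega

theorem cnt (X : Finset ℕ) (u v z N : ℕ) (hX : ∀ x, u ≤ x → x < v → x ∈ X) (hv : v ≤ N) :
    v - max u z ≤ (X.filter (fun x => z ≤ x ∧ x < N)).card := by
  rw [← Nat.card_Ico]
  apply Finset.card_le_card
  intro x hx
  rw [Finset.mem_Ico] at hx
  rw [Finset.mem_filter]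
  have h1 : u ≤ x := le_trans (le_max_left _ _) hx.1
  have h2 : z ≤ x := le_trans (le_max_right _ _) hx.1
  exact ⟨hX x h1 hx.2, h2, by omega⟩

/-- a part: labels strictly increase along the order. -/
theorem part_pay {g k : ℕ} (hk : g ≤ k) {X : Finset ℕ} {b : ℕ → ℕ} {P : Finset (ℕ × ℕ)}
    (h : Marks g k X b P) (hne : P.Nonempty)
    (hinc : ∀ q ∈ P, ∀ r ∈ P, key g q < key g r → q.2 < r.2)
    (z N : ℕ) (hN : ∀ q ∈ P, q.1 ≤ N)
    (hz : z = 0 ∨ ((∀ q ∈ P, z + g ≤ q.1) ∧ ∀ q ∈ P, q.2 = 0 → z + b q.1 + g ≤ q.1)) :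
    ∑ q ∈ P, cost b q ≤ (X.filter (fun x => z ≤ x ∧ x < N)).card := by
  classical
  obtain ⟨l, hl, hmax⟩ := Finset.exists_max_image P (key g) hne
  have hlfst : ∀ q ∈ P, q.1 ≤ l.1 := fun q hq => key_fst (h.lab l hl) (hmax q hq)
  have hllab : ∀ q ∈ P, q.2 ≤ l.2 := by
    intro q hq
    rcases Nat.lt_or_ge (key g q) (key g l) with h1 | h1
    · exact (hinc q hq l hl h1).le
    · have := key_inj (h.lab q hq) (h.lab l hl) (le_antisymm (hmax q hq) h1)
      rw [this]
  have hdist : ∀ q ∈ P, ∀ r ∈ P, q.2 = r.2 → q = r := by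
    intro q hq r hr hqr
    rcases Nat.lt_trichotomy (key g q) (key g r) with h1 | h1 | h1
    · have := hinc q hq r hr h1; omega
    · exact key_inj (h.lab q hq) (h.lab r hr) h1
    · have := hinc r hr q hq h1; omega
  set P1 := P.filter (fun q => 1 ≤ q.2) with hP1
  set P0 := P.filter (fun q => ¬ 1 ≤ q.2) with hP0
  have hsum : ∑ q ∈ P, cost b q = P1.card + ∑ q ∈ P0, b q.1 := by
    rw [← Finset.sum_filter_add_sum_filter_not P (fun q => 1 ≤ q.2)]
    congr 1
    · rw [Finset.card_eq_sum_ones]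
      apply Finset.sum_congr rfl
      intro q hq
      rw [Finset.mem_filter] at hq
      unfold cost
      rw [if_neg (by omega)]
    · apply Finset.sum_congr rfl
      intro q hq
      rw [Finset.mem_filter] at hq
      unfold cost
      rw [if_pos (by omega)]
  have hc1 : P1.card ≤ l.2 := by
    have : P1.card ≤ (Finset.Icc 1 l.2).card := by
      apply Finset.card_le_card_of_injOn (fun q => q.2)
      · intro q hq
        rw [Finset.mem_coe, hP1, Finset.mem_filter] at hq
        rw [Finset.mem_coe, Finset.mem_Icc]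
        exact ⟨hq.2, hllab q hq.1⟩
      · intro q hq r hr hqr
        rw [Finset.mem_coe, hP1, Finset.mem_filter] at hq hr
        exact hdist q hq.1 r hr.1 hqr
    rw [Nat.card_Icc] at this
    omega
  have hlg := h.lab l hl
  have hlN := hN l hl
  by_cases h0 : ∃ q ∈ P, q.2 = 0
  · obtain ⟨q, hq, hq0⟩ := h0
    have hP0q : P0 = {q} := by
      ext r
      rw [hP0, Finset.mem_filter, Finset.mem_singleton]
      constructor
      · rintro ⟨hr, hr0⟩
        exact hdist r hr q hq (by omega)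
      · rintro rfl
        exact ⟨hq, by omega⟩
    rw [hsum, hP0q, Finset.sum_singleton]
    have hql := hlfst q hq
    have hqN := hN q hq
    rcases h.zer q hq hq0 with ⟨hb1, hb2, hb3⟩ | ⟨hb1, hb3⟩
    · rcases Nat.eq_zero_or_pos l.2 with hl0 | hl0
      · have h2 := cnt X (q.1 - b q.1) q.1 z N (fun x hx1 hx2 => hb3 x (by omega) hx2) hqN
        rcases hz with hz | ⟨_, hz2⟩
        · subst hz; rw [max_eq_left (Nat.zero_le _)] at h2; omega
        · have := hz2 q hq hq0
          rcases le_total (q.1 - b q.1) z with h3 | h3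
          · rw [max_eq_right h3] at h2; omega
          · rw [max_eq_left h3] at h2; omega
      · obtain ⟨ho1, ho2⟩ := h.one l hl hl0
        have h2 := cnt X (l.1 - (k - g + l.2)) l.1 z N (fun x hx1 hx2 => ho2 x (by omega) hx2) hlN
        rcases hz with hz | ⟨_, hz2⟩
        · subst hz; rw [max_eq_left (Nat.zero_le _)] at h2; omega
        · have := hz2 q hq hq0
          rcases le_total (l.1 - (k - g + l.2)) z with h3 | h3
          · rw [max_eq_right h3] at h2; omega
          · rw [max_eq_left h3] at h2; omega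
    · have h2 := cnt X (q.1 - (b q.1 + g)) q.1 z N (fun x hx1 hx2 => hb3 x (by omega) hx2) hqN
      rcases hz with hz | ⟨_, hz2⟩
      · subst hz; rw [max_eq_left (Nat.zero_le _)] at h2; omega
      · have := hz2 q hq hq0
        rcases le_total (q.1 - (b q.1 + g)) z with h3 | h3
        · rw [max_eq_right h3] at h2; omega
        · rw [max_eq_left h3] at h2; omega
  · push Not at h0
    have hP0e : P0 = ∅ := by
      ext r
      rw [hP0, Finset.mem_filter]
      constructor
      · rintro ⟨hr, hr0⟩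
        exact absurd (by omega) (h0 r hr)
      · intro hr; exact absurd hr (Finset.notMem_empty r)
    rw [hsum, hP0e, Finset.sum_empty, Nat.add_zero]
    have hl0 : 1 ≤ l.2 := by
      have := h0 l hl
      omega
    obtain ⟨ho1, ho2⟩ := h.one l hl hl0
    have h2 := cnt X (l.1 - (k - g + l.2)) l.1 z N (fun x hx1 hx2 => ho2 x (by omega) hx2) hlN
    rcases hz with hz | ⟨hz1, _⟩
    · subst hz; rw [max_eq_left (Nat.zero_le _)] at h2; omega
    · have := hz1 l hl
      rcases le_total (l.1 - (k - g + l.2)) z with h3 | h3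
      · rw [max_eq_right h3] at h2; omega
      · rw [max_eq_left h3] at h2; omega

theorem parts_aux {g k : ℕ} (hk : g ≤ k) {X : Finset ℕ} {b : ℕ → ℕ} :
    ∀ n, ∀ M : Finset (ℕ × ℕ), M.card = n → Marks g k X b M →
    ∀ N, (∀ q ∈ M, q.1 ≤ N) →
    ∑ q ∈ M, cost b q ≤ (X.filter (fun x => x < N)).card := by
  classical
  intro n
  induction n using Nat.strong_induction_on with
  | _ n ih =>
  intro M hM h N hN
  rcases M.eq_empty_or_nonempty with hne | hne
  · subst hne; simp
  set De := M.filter (fun q => ∃ r ∈ M, key g q < key g r ∧ r.2 ≤ q.2) with hDe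
  rcases De.eq_empty_or_nonempty with hd | hd
  · have h1 := part_pay hk h hne (by
      intro q hq r hr hqr
      by_contra hcon
      have : q ∈ De := by
        rw [hDe, Finset.mem_filter]
        exact ⟨hq, r, hr, hqr, by omega⟩
      rw [hd] at this
      exact absurd this (Finset.notMem_empty q)) 0 N hN (Or.inl rfl)
    refine h1.trans (Finset.card_le_card ?_)
    intro x hx
    rw [Finset.mem_filter] at hx ⊢
    exact ⟨hx.1, hx.2.2⟩
  · obtain ⟨d, hd1, hdmax⟩ := Finset.exists_max_image De (key g) hd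
    have hdM : d ∈ M := (Finset.mem_filter.mp hd1).1
    obtain ⟨s, hs, hds, hsd⟩ := (Finset.mem_filter.mp hd1).2
    set M1 := M.filter (fun q => key g q ≤ key g d) with hM1
    set P := M.filter (fun q => ¬ key g q ≤ key g d) with hP
    have hPM : P ⊆ M := Finset.filter_subset _ _
    have hM1M : M1 ⊆ M := Finset.filter_subset _ _
    have hsP : s ∈ P := by
      rw [hP, Finset.mem_filter]; exact ⟨hs, by omega⟩
    have hcard : M1.card < n := by
      rw [← hM]
      apply Finset.card_lt_card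
      refine ⟨hM1M, fun hsub => ?_⟩
      have := hsub hs
      rw [hM1, Finset.mem_filter] at this
      omega
    have hinc : ∀ q ∈ P, ∀ r ∈ P, key g q < key g r → q.2 < r.2 := by
      intro q hq r hr hqr
      by_contra hcon
      have hqD : q ∈ De := by
        rw [hDe, Finset.mem_filter]
        exact ⟨hPM hq, r, hPM hr, hqr, by omega⟩
      have h1 := hdmax q hqD
      rw [hP, Finset.mem_filter] at hq
      exact hq.2 h1
    -- the first mark of the part
    obtain ⟨f, hf, hmin⟩ := Finset.exists_min_image P (key g) ⟨s, hsP⟩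
    have hfd : f.2 ≤ d.2 := by
      rcases Nat.lt_or_ge (key g f) (key g s) with h1 | h1
      · have := hinc f hf s hsP h1; omega
      · have := key_inj (h.lab f (hPM hf)) (h.lab s hs) (le_antisymm (hmin s hsP) h1)
        rw [this]; exact hsd
    have hfkey : key g d < key g f := by
      rw [hP, Finset.mem_filter] at hf; omega
    have hfpos : d.1 < f.1 := key_lt (h.lab f (hPM hf)) hfkey hfd
    have hfirst : ∀ q ∈ P, f.1 ≤ q.1 := fun q hq => key_fst (h.lab q (hPM hq)) (hmin q hq)
    have hgapf : d.1 + g ≤ f.1 := by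
      rcases Nat.eq_zero_or_pos f.2 with h0 | h0
      · have := h.gap0 f (hPM hf) d hdM h0 hfpos; omega
      · exact h.gap1 f (hPM hf) d hdM h0 hfpos hfd
    have hpay := part_pay hk (h.sub hPM) ⟨s, hsP⟩ hinc d.1 N (fun q hq => hN q (hPM hq))
      (Or.inr ⟨fun q hq => by have := hfirst q hq; omega, fun q hq hq0 =>
        h.gap0 q (hPM hq) d hdM hq0 (by have := hfirst q hq; omega)⟩)
    have hrest := ih M1.card hcard M1 rfl (h.sub hM1M) d.1 (by
      intro q hq
      rw [hM1, Finset.mem_filter] at hq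
      exact key_fst (h.lab d hdM) hq.2)
    have hsplit : ∑ q ∈ M, cost b q = ∑ q ∈ M1, cost b q + ∑ q ∈ P, cost b q := by
      rw [hM1, hP, Finset.sum_filter_add_sum_filter_not]
    rw [hsplit]
    refine (Nat.add_le_add hrest hpay).trans ?_
    rw [← Finset.card_union_of_disjoint]
    · apply Finset.card_le_card
      intro x hx
      rw [Finset.mem_union, Finset.mem_filter, Finset.mem_filter] at hx
      rw [Finset.mem_filter]
      rcases hx with hx | hx
      · exact ⟨hx.1, lt_of_lt_of_le hx.2 (hN d hdM)⟩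
      · exact ⟨hx.1, hx.2.2⟩
    · rw [Finset.disjoint_left]
      intro x hx1 hx2
      rw [Finset.mem_filter] at hx1 hx2
      omega

/-- THE PARTS LEMMA: the marks cost at most the number of missed positions. -/
theorem parts {g k : ℕ} (hk : g ≤ k) {X : Finset ℕ} {b : ℕ → ℕ} {M : Finset (ℕ × ℕ)}
    (h : Marks g k X b M) : ∑ q ∈ M, cost b q ≤ X.card := by
  classical
  refine (parts_aux hk M.card M rfl h (M.sup Prod.fst) ?_).trans
    (Finset.card_le_card (Finset.filter_subset _ _))
  intro q hq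
  exact Finset.le_sup (f := Prod.fst) hq

end Pool.Agent.H10C
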